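import Pool.Agent.helper19.FR.Spec

/-!
# Row fr:FOL (MP_bf63dc): Foelner sets
-/

set_option autoImplicit false

open Finset Real

namespace Pool.Agent.FR

/-- the products of the elements of `F` with all exponents `≤ n` -/
noncomputable def FOL_P (F : Finset ℕ) (n : ℕ) : Finset ℕ :=
  (Fintype.piFinset (fun _ : F => range (n + 1))).image (fun e : F → ℕ => ∏ s : F, (s : ℕ) ^ (e s))

theorem FOL_card (F : Finset ℕ) (n : ℕ) : #(FOL_P F n) ≤ (n + 1) ^ #F := by
  refine card_image_le.trans ?_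
  rw [Fintype.card_piFinset]
  simp

theorem FOL_mono (F : Finset ℕ) (n : ℕ) : FOL_P F n ⊆ FOL_P F (n + 1) := by
  intro v hv
  obtain ⟨e, he, rfl⟩ := mem_image.1 hv
  refine mem_image.2 ⟨e, ?_, rfl⟩
  rw [Fintype.mem_piFinset] at he ⊢
  intro s
  have := he s
  rw [mem_range] at this ⊢
  omega

theorem FOL_mul (F : Finset ℕ) (n v s : ℕ) (hv : v ∈ FOL_P F n) (hs : s ∈ F) : v * s ∈ FOL_P F (n + 1) := by
  classical
  obtain ⟨e, he, rfl⟩ := mem_image.1 hv
  rw [Fintype.mem_piFinset] at he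
  refine mem_image.2 ⟨fun x => e x + (if x = ⟨s, hs⟩ then 1 else 0), ?_, ?_⟩
  · rw [Fintype.mem_piFinset]
    intro x
    have := he x
    rw [mem_range] at this ⊢
    split_ifs <;> omega
  · simp only
    have h1 : ∀ x : F, (x : ℕ) ^ (e x + (if x = ⟨s, hs⟩ then 1 else 0)) = (x : ℕ) ^ (e x) * (if x = ⟨s, hs⟩ then s else 1) := by
      intro x
      by_cases h : x = ⟨s, hs⟩
      · rw [if_pos h, if_pos h, pow_succ, h]
      · rw [if_neg h, if_neg h, add_zero, mul_one]
    rw [prod_congr rfl fun x _ => h1 x, prod_mul_distrib, prod_ite_eq' univ (⟨s, hs⟩ : F) (fun _ => s), if_pos (mem_univ _)]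

theorem FOL : FOL_stmt := by
  intro F η hF hη
  have hr : (1 : ℝ) < 1 + η := by linarith
  have hex : ∃ n : ℕ, (#(FOL_P F (n + 1)) : ℝ) ≤ (1 + η) * #(FOL_P F n) := by
    by_contra hc
    push Not at hc
    have hgrow : ∀ n : ℕ, (1 + η) ^ n ≤ (#(FOL_P F n) : ℝ) := by
      intro n
      induction n with
      | zero =>
        have h1 : 0 < #(FOL_P F 0) := by
          rw [card_pos]
          refine ⟨∏ s : F, (s : ℕ) ^ 0, mem_image.2 ⟨fun _ => 0, ?_, rfl⟩⟩
          rw [Fintype.mem_piFinset]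
          intro s
          simp
        rw [pow_zero]
        exact_mod_cast h1
      | succ n ih =>
        rw [pow_succ']
        exact (mul_le_mul_of_nonneg_left ih (by linarith)).trans (hc n).le
    have hlim := (tendsto_pow_const_div_const_pow_of_one_lt (#F) hr).comp (Filter.tendsto_add_atTop_nat 1)
    have hev := hlim.eventually (gt_mem_nhds (show (0 : ℝ) < 1 / (1 + η) by positivity))
    obtain ⟨n, hn⟩ := hev.exists
    simp only [Function.comp_apply] at hn
    have h1 : (0 : ℝ) < (1 + η) ^ (n + 1) := by positivity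
    rw [div_lt_div_iff₀ h1 (by linarith), one_mul, pow_succ] at hn
    have h2 : ((n + 1 : ℕ) : ℝ) ^ #F < (1 + η) ^ n := lt_of_mul_lt_mul_right hn (by linarith)
    have h3 : (#(FOL_P F n) : ℝ) ≤ ((n + 1 : ℕ) : ℝ) ^ #F := by exact_mod_cast FOL_card F n
    exact absurd (hgrow n) (not_le.2 (lt_of_le_of_lt h3 h2))
  obtain ⟨n, hn⟩ := hex
  refine ⟨FOL_P F n, ?_, ?_, ?_⟩
  · refine ⟨∏ s : F, (s : ℕ) ^ 0, mem_image.2 ⟨fun _ => 0, ?_, rfl⟩⟩
    rw [Fintype.mem_piFinset]
    intro s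
    simp
  · intro v hv
    obtain ⟨e, -, rfl⟩ := mem_image.1 hv
    exact prod_pos fun s _ => pow_pos (hF s s.2) _
  · refine le_trans ?_ hn
    have hsub : FOL_P F n ∪ (FOL_P F n ×ˢ F).image (fun z => z.1 * z.2) ⊆ FOL_P F (n + 1) := by
      refine union_subset (FOL_mono F n) ?_
      intro w hw
      obtain ⟨z, hz, rfl⟩ := mem_image.1 hw
      obtain ⟨h1, h2⟩ := mem_product.1 hz
      exact FOL_mul F n z.1 z.2 h1 h2
    exact_mod_cast card_le_card hsub

end Pool.Agent.FR
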