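import Pool.Agent.helper40.FR.B

set_option autoImplicit false

/-!
# Structure of `S_n = (𝒪/𝔭^n, β) ⋊ P` (module fr:ST of MP_f00966_al)
-/

namespace Pool.Agent.helper40.FR

open Polynomial Finset Pool.Agent.helper40.Laz

variable {p : ℕ} [hp : Fact p.Prime]

section proj

variable {r : ℕ} (β : BB p r) (hr : p ≤ r + 2)

/-- The projection `𝒪/𝔭^n → 𝒪/𝔭^m`. -/
noncomputable def BB.proj {m n : ℕ} (hmn : m ≤ n) (hJ : ∀ x y z, pi p ^ n ∣ β.jac x y z)
    (hJ' : ∀ x y z, pi p ^ m ∣ β.jac x y z) : (β.L hr n hJ).L →ₗ⁅ℤ_[p]⁆ (β.L hr m hJ').L :=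
  { (Submodule.factor (Ideal.pow_le_pow_right hmn :
      PP p ^ n ≤ PP p ^ m)).restrictScalars ℤ_[p] with
    map_lie' := by
      intro x y
      obtain ⟨x, rfl⟩ := Submodule.Quotient.mk_surjective _ x
      obtain ⟨y, rfl⟩ := Submodule.Quotient.mk_surjective _ y
      rfl }

variable {m n : ℕ} (hmn : m ≤ n) (hJ : ∀ x y z, pi p ^ n ∣ β.jac x y z)
    (hJ' : ∀ x y z, pi p ^ m ∣ β.jac x y z)

theorem BB.proj_cl (x : OO p) : β.proj hr hmn hJ hJ' (β.cl hr n hJ x) = β.cl hr m hJ' x := rfl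

theorem BB.proj_surjective : Function.Surjective (β.proj hr hmn hJ hJ') := by
  intro y
  obtain ⟨x, rfl⟩ := β.cl_surjective hr m hJ' y
  exact ⟨β.cl hr n hJ x, rfl⟩

theorem BB.proj_act (u : Pg p) (x : (β.L hr n hJ).L) :
    β.proj hr hmn hJ hJ' ((β.L hr n hJ).act u x)
      = (β.L hr m hJ').act u (β.proj hr hmn hJ hJ' x) := by
  obtain ⟨x, rfl⟩ := β.cl_surjective hr n hJ x
  rfl

include hmn in
theorem BB.nil_proj {c : ℕ} (h : (β.L hr n hJ).Nil c) : (β.L hr m hJ').Nil c := by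
  unfold ELie.Nil at *
  rw [← LieIdeal.lowerCentralSeries_map_eq c (f := β.proj hr hmn hJ hJ')
    (β.proj_surjective hr hmn hJ hJ'), h]
  exact LieIdeal.map_eq_bot_iff.2 bot_le

/-- The projection of groups. -/
noncomputable def BB.projG (h : (β.L hr n hJ).Nil (p - 1)) (h' : (β.L hr m hJ').Nil (p - 1)) :
    (β.L hr n hJ).G h →* (β.L hr m hJ').G h' :=
  MonoidHom.mk' (fun x => (β.L hr m hJ').toG h' (β.proj hr hmn hJ hJ' ((β.L hr n hJ).ofG h x)))
    (fun x y => map_laz (lcsFil h) (lcsFil_one h) (lcsFil h') (lcsFil_one h')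
      (β.proj hr hmn hJ hJ') x y)

/-- The projection of semidirect products. -/
noncomputable def BB.projS (h : (β.L hr n hJ).Nil (p - 1)) (h' : (β.L hr m hJ').Nil (p - 1)) :
    (β.L hr n hJ).S h →* (β.L hr m hJ').S h' :=
  SemidirectProduct.map (β.projG hr hmn hJ hJ' h h') (MonoidHom.id _) (by
    intro u
    ext x
    exact β.proj_act hr hmn hJ hJ' u x)

end proj

theorem thU_ne_one : thU p ≠ 1 := by
  intro h
  have h1 : th p = 1 := congrArg Units.val h
  have h2 : pi p = 0 := by unfold pi; rw [h1, sub_self]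
  have h3 : (1 : OO p) = 0 := pi_mul_inj (by rw [h2, zero_mul])
  exact one_ne_zero h3

theorem thU_pow : thU p ^ p = 1 := by
  apply Units.ext
  rw [Units.val_pow_eq_pow_val]
  exact th_pow p

theorem card_Pg : Nat.card (Pg p) = p := by
  rw [Nat.card_zpowers, orderOf_eq_prime thU_pow thU_ne_one]

instance : Finite (Pg p) := Nat.finite_of_card_ne_zero (by rw [card_Pg]; exact hp.out.ne_zero)

/-- `u - 1 = π w` with `w` a unit, if `u ≠ 1` -/
theorem exists_sub_one {u : Pg p} (hu : u ≠ 1) :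
    ∃ w : OO p, IsUnit w ∧ ((u : (OO p)ˣ) : OO p) - 1 = pi p * w := by
  obtain ⟨n, hn⟩ := mem_Pg u
  have h1 : ((u : (OO p)ˣ) : OO p) - 1 = pi p * ∑ i ∈ range n, th p ^ i := by
    rw [hn, mul_comm]
    unfold pi
    exact (geom_sum_mul (th p) n).symm
  refine ⟨_, (isUnit_iff _).2 ?_, h1⟩
  rw [map_sum]
  have h2 : ∀ i ∈ range n, kap p (th p ^ i) = 1 := fun i _ => by
    rw [map_pow, kap_th, one_pow]
  rw [sum_congr rfl h2, sum_const, card_range, nsmul_eq_mul, mul_one]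
  intro h3
  apply hu
  have h4 : p ∣ n := (ZMod.natCast_eq_zero_iff n p).1 h3
  obtain ⟨k, rfl⟩ := h4
  apply Subtype.ext
  apply Units.ext
  show ((u : (OO p)ˣ) : OO p) = 1
  rw [hn, pow_mul, th_pow, one_pow]

theorem pi_dvd_sub_one (u : Pg p) : pi p ∣ ((u : (OO p)ˣ) : OO p) - 1 := by
  obtain ⟨n, hn⟩ := mem_Pg u
  rw [hn, th_eq]
  have := sub_dvd_pow_sub_pow (1 + pi p) 1 n
  rw [one_pow] at this
  rwa [add_sub_cancel_left] at this

theorem not_pi_dvd_one : ¬ pi p ∣ (1 : OO p) := by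
  intro h
  have := (kap_eq_zero_iff (1 : OO p)).2 h
  rw [map_one] at this
  exact one_ne_zero this

theorem not_pi_dvd_unit {w : OO p} (hw : IsUnit w) : ¬ pi p ∣ w := by
  intro h
  exact (isUnit_iff w).1 hw ((kap_eq_zero_iff w).2 h)

section

variable {r : ℕ}

theorem card_S (β : BB p r) (hr : p + 1 ≤ r) (n : ℕ)
    (hJ : ∀ x y z, pi p ^ n ∣ β.jac x y z) (h : (β.L (by omega) n hJ).Nil (p - 1)) :
    Nat.card ((β.L (by omega) n hJ).S h) = p ^ (n + 1) := by
  rw [SemidirectProduct.card, card_Pg, pow_succ]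
  congr 1
  exact β.card (by omega) n hJ

/-- brackets with elements of `𝔭^a` -/
theorem BB.lie_small (β : BB p r) (hr : p + 1 ≤ r) {a n : ℕ} (hn : n ≤ a + 2)
    (hJ : ∀ x y z, pi p ^ n ∣ β.jac x y z) {x : OO p} (hx : pi p ^ a ∣ x)
    (y : (β.L (by omega) n hJ).L) : ⁅β.cl (by omega) n hJ x, y⁆ = 0 := by
  obtain ⟨y, rfl⟩ := β.cl_surjective (by omega) n hJ y
  rw [β.cl_lie, β.cl_eq_zero]
  exact (pow_dvd_pow _ (by omega)).trans (β.dvd_of' hx y)

theorem BB.bch_comm (β : BB p r) (hr : p ≤ r + 2) {n : ℕ}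
    (hJ : ∀ x y z, pi p ^ n ∣ β.jac x y z) (h : (β.L hr n hJ).Nil (p - 1))
    {x y : (β.L hr n hJ).L} (hxy : ⁅x, y⁆ = 0) :
    (β.L hr n hJ).toG h x * (β.L hr n hJ).toG h y = (β.L hr n hJ).toG h (x + y) :=
  laz_of_comm (lcsFil h) (lcsFil_one h) inv_padic one_le_pred hxy

theorem centralizer_S (β : BB p r) (hr : p + 1 ≤ r) (n : ℕ)
    (hJ : ∀ x y z, pi p ^ n ∣ β.jac x y z) (h : (β.L (by omega) n hJ).Nil (p - 1))
    (t : (β.L (by omega) n hJ).S h) (ht : t.right ≠ 1) (d : OO p)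
    (hd : Commute t (SemidirectProduct.inl (ELie.toG _ h (β.cl (by omega) n hJ d)))) :
    pi p ^ (n - 1) ∣ d := by
  by_contra hcon
  obtain ⟨k, hk, w, hw, rfl⟩ := exists_unit hcon
  have hr' : p ≤ r + 2 := by omega
  have hkn : k + 2 ≤ n := by omega
  have hJ' : ∀ x y z, pi p ^ (k + 2) ∣ β.jac x y z := fun x y z =>
    (pow_dvd_pow _ hkn).trans (hJ x y z)
  have h' : (β.L hr' (k + 2) hJ').Nil (p - 1) := β.nil_proj hr' hkn hJ hJ' h
  have h1 := hd.map (β.projS hr' hkn hJ hJ' h h')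
  set s := β.projS hr' hkn hJ hJ' h h' t with hs
  have h2 : s.right = t.right := rfl
  have h3 : β.projS hr' hkn hJ hJ' h h' (SemidirectProduct.inl (ELie.toG _ h
      (β.cl (by omega) n hJ (pi p ^ k * w)))) =
      SemidirectProduct.inl ((β.L hr' (k + 2) hJ').toG h'
        (β.cl hr' (k + 2) hJ' (pi p ^ k * w))) := by
    unfold BB.projS
    rw [SemidirectProduct.map_inl]
    rfl
  rw [h3] at h1
  have h4 := congrArg SemidirectProduct.left h1.eq
  rw [SemidirectProduct.mul_left, SemidirectProduct.mul_left, SemidirectProduct.left_inl,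
    SemidirectProduct.right_inl, map_one, MulAut.one_apply] at h4
  -- the action
  have h5 : (β.L hr' (k + 2) hJ').phi h' s.right ((β.L hr' (k + 2) hJ').toG h'
      (β.cl hr' (k + 2) hJ' (pi p ^ k * w))) = (β.L hr' (k + 2) hJ').toG h'
      (β.cl hr' (k + 2) hJ' (((s.right : (OO p)ˣ) : OO p) * (pi p ^ k * w))) := rfl
  rw [h5] at h4
  have hx : pi p ^ k ∣ pi p ^ k * w := dvd_mul_right _ _
  have hx' : pi p ^ k ∣ ((s.right : (OO p)ˣ) : OO p) * (pi p ^ k * w) :=
    Dvd.dvd.mul_left hx _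
  set g : (β.L hr' (k + 2) hJ').L := (β.L hr' (k + 2) hJ').ofG h' s.left with hg
  have h6 : s.left = (β.L hr' (k + 2) hJ').toG h' g := rfl
  have e1 : ⁅g, β.cl hr' (k + 2) hJ' (((s.right : (OO p)ˣ) : OO p) * (pi p ^ k * w))⁆ = 0 := by
    rw [← lie_skew, β.lie_small hr le_rfl hJ' hx' g, neg_zero]
  have e2 := β.lie_small hr le_rfl hJ' hx g
  rw [h6, β.bch_comm hr' hJ' h' e1, β.bch_comm hr' hJ' h' e2] at h4
  have h7 : g + β.cl hr' (k + 2) hJ' (((s.right : (OO p)ˣ) : OO p) * (pi p ^ k * w)) =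
      β.cl hr' (k + 2) hJ' (pi p ^ k * w) + g := h4
  rw [add_comm _ g] at h7
  have h8 := add_left_cancel h7
  rw [← sub_eq_zero, ← map_sub, β.cl_eq_zero] at h8
  obtain ⟨v, hv, hv'⟩ := exists_sub_one (show s.right ≠ 1 by rw [h2]; exact ht)
  have h9 : ((s.right : (OO p)ˣ) : OO p) * (pi p ^ k * w) - pi p ^ k * w =
      pi p ^ (k + 1) * (v * w) := by
    calc ((s.right : (OO p)ˣ) : OO p) * (pi p ^ k * w) - pi p ^ k * w =
        (((s.right : (OO p)ˣ) : OO p) - 1) * (pi p ^ k * w) := by ring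
      _ = _ := by rw [hv']; ring
  rw [h9, show k + 2 = k + 1 + 1 from rfl] at h8
  have h10 := pi_pow_dvd h8
  rw [pow_one] at h10
  exact not_pi_dvd_unit (hv.mul hw) h10

/-- elements of `𝔭^n` are central in `S_{n+1}` -/
theorem BB.central (β : BB p r) (hr : p + 1 ≤ r) (n : ℕ)
    (hJ : ∀ x y z, pi p ^ (n + 1) ∣ β.jac x y z)
    (h : (β.L (by omega) (n + 1) hJ).Nil (p - 1)) {d : OO p} (hd : pi p ^ n ∣ d) :
    (SemidirectProduct.inl (ELie.toG _ h (β.cl (by omega) (n + 1) hJ d)) :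
      (β.L (by omega) (n + 1) hJ).S h) ∈ Subgroup.center _ := by
  have hr' : p ≤ r + 2 := by omega
  rw [Subgroup.mem_center_iff]
  intro t
  refine SemidirectProduct.ext ?_ ?_
  · rw [SemidirectProduct.mul_left, SemidirectProduct.mul_left, SemidirectProduct.left_inl,
      SemidirectProduct.right_inl, map_one, MulAut.one_apply]
    set g : (β.L hr' (n + 1) hJ).L := (β.L hr' (n + 1) hJ).ofG h t.left with hg
    have h6 : t.left = (β.L hr' (n + 1) hJ).toG h g := rfl
    have h5 : (β.L hr' (n + 1) hJ).phi h t.right ((β.L hr' (n + 1) hJ).toG h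
      (β.cl hr' (n + 1) hJ d)) = (β.L hr' (n + 1) hJ).toG h
      (β.cl hr' (n + 1) hJ (((t.right : (OO p)ˣ) : OO p) * d)) := rfl
    have h7 : β.cl hr' (n + 1) hJ (((t.right : (OO p)ˣ) : OO p) * d) =
        β.cl hr' (n + 1) hJ d := by
      rw [← sub_eq_zero, ← map_sub, β.cl_eq_zero]
      have : ((t.right : (OO p)ˣ) : OO p) * d - d =
          (((t.right : (OO p)ˣ) : OO p) - 1) * d := by ring
      rw [this, pow_succ']
      exact mul_dvd_mul (pi_dvd_sub_one _) hd
    have e2 := β.lie_small hr (show n + 1 ≤ n + 2 by omega) hJ hd g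
    have e1 : ⁅g, β.cl hr' (n + 1) hJ d⁆ = 0 := by
      rw [← lie_skew, e2, neg_zero]
    show t.left * (β.L hr' (n + 1) hJ).phi h t.right ((β.L hr' (n + 1) hJ).toG h
      (β.cl hr' (n + 1) hJ d)) = (β.L hr' (n + 1) hJ).toG h (β.cl hr' (n + 1) hJ d) * t.left
    rw [h5, h7, h6, β.bch_comm hr' hJ h e1, β.bch_comm hr' hJ h e2]
    exact congrArg _ (add_comm _ _)
  · rw [SemidirectProduct.mul_right, SemidirectProduct.mul_right, SemidirectProduct.right_inl,
      mul_one, one_mul]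

theorem BB.mem_center (β : BB p r) (hr : p + 1 ≤ r) (n : ℕ) (hn : 1 ≤ n)
    (hJ : ∀ x y z, pi p ^ (n + 1) ∣ β.jac x y z)
    (h : (β.L (by omega) (n + 1) hJ).Nil (p - 1))
    {z : (β.L (by omega) (n + 1) hJ).S h} (hz : z ∈ Subgroup.center _) :
    ∃ d : OO p, pi p ^ n ∣ d ∧
      z = SemidirectProduct.inl (ELie.toG _ h (β.cl (by omega) (n + 1) hJ d)) := by
  have hr' : p ≤ r + 2 := by omega
  rw [Subgroup.mem_center_iff] at hz
  have h1 : z.right = 1 := by
    by_contra h1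
    have h2 := centralizer_S β hr (n + 1) hJ h z h1 1 (hz _).symm
    rw [Nat.add_sub_cancel] at h2
    exact not_pi_dvd_one ((dvd_pow_self _ (by omega)).trans h2)
  obtain ⟨d, hd⟩ := β.cl_surjective hr' (n + 1) hJ ((β.L hr' (n + 1) hJ).ofG h z.left)
  have h3 : z = SemidirectProduct.inl (ELie.toG _ h (β.cl (by omega) (n + 1) hJ d)) := by
    refine SemidirectProduct.ext ?_ ?_
    · rw [SemidirectProduct.left_inl, hd]
      rfl
    · rw [SemidirectProduct.right_inl, h1]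
  refine ⟨d, ?_, h3⟩
  have h4 := centralizer_S β hr (n + 1) hJ h
    (SemidirectProduct.inr ⟨thU p, Subgroup.mem_zpowers _⟩) (by
      rw [SemidirectProduct.right_inr]
      intro h5
      exact thU_ne_one (congrArg Subtype.val h5)) d (by
      rw [← h3]
      exact hz _)
  rwa [Nat.add_sub_cancel] at h4

theorem BB.projS_surjective (β : BB p r) (hr : p ≤ r + 2) {m n : ℕ} (hmn : m ≤ n)
    (hJ : ∀ x y z, pi p ^ n ∣ β.jac x y z) (hJ' : ∀ x y z, pi p ^ m ∣ β.jac x y z)
    (h : (β.L hr n hJ).Nil (p - 1)) (h' : (β.L hr m hJ').Nil (p - 1)) :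
    Function.Surjective (β.projS hr hmn hJ hJ' h h') := by
  intro s
  obtain ⟨y, hy⟩ := β.proj_surjective hr hmn hJ hJ' ((β.L hr m hJ').ofG h' s.left)
  refine ⟨⟨(β.L hr n hJ).toG h y, s.right⟩, SemidirectProduct.ext ?_ rfl⟩
  exact hy

theorem BB.projS_eq_one (β : BB p r) (hr : p ≤ r + 2) {m n : ℕ} (hmn : m ≤ n)
    (hJ : ∀ x y z, pi p ^ n ∣ β.jac x y z) (hJ' : ∀ x y z, pi p ^ m ∣ β.jac x y z)
    (h : (β.L hr n hJ).Nil (p - 1)) (h' : (β.L hr m hJ').Nil (p - 1))
    (z : (β.L hr n hJ).S h) : β.projS hr hmn hJ hJ' h h' z = 1 ↔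
      ∃ d : OO p, pi p ^ m ∣ d ∧ z = SemidirectProduct.inl (ELie.toG _ h (β.cl hr n hJ d)) := by
  constructor
  · intro hz
    have h1 : z.right = 1 := congrArg SemidirectProduct.right hz
    have h2 : β.proj hr hmn hJ hJ' ((β.L hr n hJ).ofG h z.left) = 0 :=
      congrArg SemidirectProduct.left hz
    obtain ⟨d, hd⟩ := β.cl_surjective hr n hJ ((β.L hr n hJ).ofG h z.left)
    rw [← hd, β.proj_cl, β.cl_eq_zero] at h2
    refine ⟨d, h2, SemidirectProduct.ext ?_ ?_⟩
    · rw [SemidirectProduct.left_inl, hd]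
      rfl
    · rw [SemidirectProduct.right_inl, h1]
  · rintro ⟨d, hd, rfl⟩
    refine SemidirectProduct.ext ?_ rfl
    exact (β.cl_eq_zero hr m hJ').2 hd

theorem quot_center (β : BB p r) (hr : p + 1 ≤ r) (n : ℕ) (hn : 1 ≤ n)
    (hJ : ∀ x y z, pi p ^ n ∣ β.jac x y z) (h : (β.L (by omega) n hJ).Nil (p - 1))
    (hJ' : ∀ x y z, pi p ^ (n + 1) ∣ β.jac x y z)
    (h' : (β.L (by omega) (n + 1) hJ').Nil (p - 1)) :
    Nonempty (((β.L (by omega) (n + 1) hJ').S h' ⧸ Subgroup.center _) ≃*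
      (β.L (by omega) n hJ).S h) := by
  have hr' : p ≤ r + 2 := by omega
  have hk : (β.projS hr' (Nat.le_succ n) hJ' hJ h' h).ker = Subgroup.center _ := by
    ext z
    rw [MonoidHom.mem_ker, β.projS_eq_one hr' (Nat.le_succ n) hJ' hJ h' h]
    constructor
    · rintro ⟨d, hd, rfl⟩
      exact β.central hr n hJ' h' hd
    · intro hz
      exact β.mem_center hr n hn hJ' h' hz
  exact ⟨(QuotientGroup.quotientMulEquivOfEq hk.symm).trans
    (QuotientGroup.quotientKerEquivOfSurjective _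
      (β.projS_surjective hr' (Nat.le_succ n) hJ' hJ h' h))⟩

theorem class_S (β : BB p r) (hr : p + 1 ≤ r) (n : ℕ) (hn : 1 ≤ n) :
    ∀ (hJ : ∀ x y z, pi p ^ n ∣ β.jac x y z) (h : (β.L (by omega) n hJ).Nil (p - 1)),
    Group.nilpotencyClass ((β.L (by omega) n hJ).S h) = n := by
  have hr' : p ≤ r + 2 := by omega
  induction n, hn using Nat.le_induction with
  | base =>
    intro hJ h
    have hc := card_S β hr 1 hJ h
    have hfin : Finite ((β.L (by omega) 1 hJ).S h) :=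
      Nat.finite_of_card_ne_zero (by rw [hc]; exact pow_ne_zero _ hp.out.ne_zero)
    have hpg : IsPGroup p ((β.L (by omega) 1 hJ).S h) := IsPGroup.of_card hc
    have hnil : Group.IsNilpotent ((β.L (by omega) 1 hJ).S h) := hpg.isNilpotent
    have hcomm := IsPGroup.isMulCommutative_of_card_eq_prime_sq hc
    have hnt : Nontrivial ((β.L (by omega) 1 hJ).S h) := by
      rw [← Finite.one_lt_card_iff_nontrivial, hc]
      exact Nat.one_lt_pow (by omega) hp.out.one_lt
    rw [Group.nilpotencyClass_eq_quotient_center_plus_one]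
    have hz : Subgroup.center ((β.L hr' 1 hJ).S h) = ⊤ := by
      rw [eq_top_iff]
      intro z _
      rw [Subgroup.mem_center_iff]
      intro t
      exact hcomm.is_comm.comm t z
    have h0 : Group.nilpotencyClass
        ((β.L hr' 1 hJ).S h ⧸ Subgroup.center ((β.L hr' 1 hJ).S h)) = 0 := by
      rw [Group.nilpotencyClass_zero_iff_subsingleton]
      rw [hz]
      exact QuotientGroup.subsingleton_quotient_top
    rw [h0]
  | succ n hn ih =>
    intro hJ h
    have hJn : ∀ x y z, pi p ^ n ∣ β.jac x y z := fun x y z =>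
      (pow_dvd_pow _ (Nat.le_succ n)).trans (hJ x y z)
    have hn' : (β.L hr' n hJn).Nil (p - 1) := β.nil_proj hr' (Nat.le_succ n) hJ hJn h
    have hc := card_S β hr (n + 1) hJ h
    have hfin : Finite ((β.L (by omega) (n + 1) hJ).S h) :=
      Nat.finite_of_card_ne_zero (by rw [hc]; exact pow_ne_zero _ hp.out.ne_zero)
    have hpg : IsPGroup p ((β.L (by omega) (n + 1) hJ).S h) := IsPGroup.of_card hc
    have hnil : Group.IsNilpotent ((β.L (by omega) (n + 1) hJ).S h) := hpg.isNilpotent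
    have hnt : Nontrivial ((β.L (by omega) (n + 1) hJ).S h) := by
      rw [← Finite.one_lt_card_iff_nontrivial, hc]
      exact Nat.one_lt_pow (by omega) hp.out.one_lt
    rw [Group.nilpotencyClass_eq_quotient_center_plus_one]
    obtain ⟨e⟩ := quot_center β hr n hn hJn hn' hJ h
    have hnil2 : Group.IsNilpotent
        ((β.L (by omega) (n + 1) hJ).S h ⧸ Subgroup.center _) := inferInstance
    have hfin3 : Finite ((β.L (by omega) n hJn).S hn') :=
      Nat.finite_of_card_ne_zero (by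
        rw [card_S β hr n hJn hn']; exact pow_ne_zero _ hp.out.ne_zero)
    have hnil3 : Group.IsNilpotent ((β.L (by omega) n hJn).S hn') :=
      (IsPGroup.of_card (card_S β hr n hJn hn')).isNilpotent
    have e1 : Group.nilpotencyClass
        ((β.L (by omega) (n + 1) hJ).S h ⧸ Subgroup.center _) =
        Group.nilpotencyClass ((β.L (by omega) n hJn).S hn') :=
      le_antisymm
        (Group.nilpotencyClass_le_of_surjective e.symm.toMonoidHom e.symm.surjective)
        (Group.nilpotencyClass_le_of_surjective e.toMonoidHom e.surjective)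
    rw [e1, ih hJn hn']

theorem maxClass_S (β : BB p r) (hr : p + 1 ≤ r) (n : ℕ) (hn : 1 ≤ n)
    (hJ : ∀ x y z, pi p ^ n ∣ β.jac x y z) (h : (β.L (by omega) n hJ).Nil (p - 1)) :
    MaxClass p ((β.L (by omega) n hJ).S h) :=
  ⟨n + 1, by omega, card_S β hr n hJ h, class_S β hr n hn hJ h⟩

end

end Pool.Agent.helper40.FR
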